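import Mathlib

/-!
The characters of the symmetric powers of `SU(2)` as polynomials of the trace.
-/

set_option autoImplicit false

namespace Pool.Agent.H414.GRC

open Finset

/-- The trace of `Sym^n` as a polynomial of the trace `x`. -/
def u : ℕ → ℝ → ℝ
  | 0, _ => 1
  | 1, x => x
  | n + 2, x => x * u (n + 1) x - u n x

@[simp] theorem u_zero (x : ℝ) : u 0 x = 1 := rfl
@[simp] theorem u_one (x : ℝ) : u 1 x = x := rfl
theorem u_add_two (n : ℕ) (x : ℝ) : u (n + 2) x = x * u (n + 1) x - u n x := rfl

theorem u_continuous (n : ℕ) : Continuous (u n) := by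
  induction n using Nat.strong_induction_on with
  | _ n ih =>
    match n with
    | 0 => exact continuous_const
    | 1 => exact continuous_id
    | n + 2 =>
      exact (continuous_id.mul (ih (n + 1) (by omega))).sub (ih n (by omega))

theorem u_neg (n : ℕ) (x : ℝ) : u n (-x) = (-1) ^ n * u n x := by
  induction n using Nat.strong_induction_on with
  | _ n ih =>
    match n with
    | 0 => simp
    | 1 => simp
    | n + 2 =>
      rw [u_add_two, u_add_two, ih (n + 1) (by omega), ih n (by omega)]
      ring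

theorem u_neg_sq (n : ℕ) (x : ℝ) : u n (-x) ^ 2 = u n x ^ 2 := by
  rw [u_neg, mul_pow, ← pow_mul, mul_comm n 2, pow_mul]
  norm_num

theorem u_pos_mono {x : ℝ} (hx : 2 ≤ x) (n : ℕ) : 1 ≤ u n x ∧ u n x ≤ u (n + 1) x := by
  induction n with
  | zero => simp; linarith
  | succ n ih =>
    refine ⟨ih.1.trans ih.2, ?_⟩
    rw [u_add_two]
    nlinarith [ih.1, ih.2]

theorem u_pos {x : ℝ} (hx : 2 ≤ x) (n : ℕ) : 0 < u n x :=
  lt_of_lt_of_le zero_lt_one (u_pos_mono hx n).1

theorem u_cross {x y : ℝ} (hx : 2 ≤ x) (hxy : x ≤ y) (n : ℕ) :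
    u (n + 1) x * u n y ≤ u (n + 1) y * u n x := by
  induction n with
  | zero => simpa using hxy
  | succ n ih =>
    rw [u_add_two, u_add_two]
    have h1 := u_pos hx (n + 1)
    have h2 := u_pos (hx.trans hxy) (n + 1)
    nlinarith [mul_nonneg (sub_nonneg.2 hxy) (mul_pos h1 h2).le]

theorem u_le {x y : ℝ} (hx : 2 ≤ x) (hxy : x ≤ y) (n : ℕ) : u n x ≤ u n y := by
  induction n with
  | zero => simp
  | succ n ih =>
    have h1 := u_cross hx hxy n
    have h2 := u_pos hx (n + 1)
    have h3 := u_pos hx n
    have h4 : u (n + 1) x * u n x ≤ u (n + 1) y * u n x :=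
      (mul_le_mul_of_nonneg_left ih h2.le).trans h1
    exact le_of_mul_le_mul_right h4 h3

/-- The product formula (Clebsch-Gordan). -/
theorem u_mul (j i : ℕ) (h : j ≤ i) (x : ℝ) :
    u i x * u j x = ∑ l ∈ range (j + 1), u (i + j - 2 * l) x := by
  induction j using Nat.strong_induction_on generalizing i with
  | _ j ih =>
    match j with
    | 0 => simp
    | 1 =>
      obtain ⟨i, rfl⟩ : ∃ i', i = i' + 1 := ⟨i - 1, by omega⟩
      rw [sum_range_succ, sum_range_succ, range_zero, sum_empty, zero_add, u_one]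
      have h1 : i + 1 + 1 - 2 * 0 = i + 2 := by omega
      have h2 : i + 1 + 1 - 2 * 1 = i := by omega
      rw [h1, h2, u_add_two]
      ring
    | j + 2 =>
      obtain ⟨i, rfl⟩ : ∃ i', i = i' + 1 := ⟨i - 1, by omega⟩
      -- u_{i+1} u_{j+2} = (u_{i+2} + u_i) u_{j+1} - u_{i+1} u_j
      have e1 : u (i + 1) x * u (j + 2) x =
          u (i + 2) x * u (j + 1) x + u i x * u (j + 1) x - u (i + 1) x * u j x := by
        rw [u_add_two j, u_add_two i]
        ring
      rw [e1, ih (j + 1) (by omega) (i + 2) (by omega), ih j (by omega) (i + 1) (by omega),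
        ih (j + 1) (by omega) i (by omega), sum_range_succ (n := j + 2),
        sum_range_succ' (n := j + 1)]
      have e2 : ∑ l ∈ range (j + 1), u (i + (j + 1) - 2 * l) x =
          ∑ l ∈ range (j + 1), u (i + 1 + j - 2 * l) x :=
        sum_congr rfl fun l _ => by congr 1; omega
      have e3 : ∑ l ∈ range (j + 1), u (i + 2 + (j + 1) - 2 * (l + 1)) x =
          ∑ l ∈ range (j + 1), u (i + 1 + j - 2 * l) x :=
        sum_congr rfl fun l _ => by congr 1; omega
      have e4 : ∑ l ∈ range (j + 2), u (i + 1 + (j + 2) - 2 * l) x =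
          ∑ l ∈ range (j + 1), u (i + 1 + j - 2 * l) x + u (i + 1 + (j + 2)) x := by
        rw [sum_range_succ']
        congr 1
        exact sum_congr rfl fun l _ => by congr 1; omega
      have e5 : ∑ l ∈ range (j + 1 + 1), u (i + (j + 1) - 2 * l) x =
          ∑ l ∈ range (j + 1), u (i + 1 + j - 2 * l) x + u (i + 1 + (j + 2) - 2 * (j + 2)) x := by
        rw [sum_range_succ, e2]
        congr 2
        omega
      have e6 : u (i + 2 + (j + 1) - 2 * 0) x = u (i + 1 + (j + 2)) x := by
        congr 1
        omega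
      rw [e3, e4, e5, e6]
      ring

/-- Linearisation of a product. -/
theorem u_mul_lin (k i j : ℕ) (hi : i ≤ k) (hj : j ≤ k) :
    ∃ e : ℕ → ℝ, (∀ x, u i x * u j x = ∑ n ∈ range (2 * k + 1), e n * u n x) ∧
      e 0 = if i = j then 1 else 0 := by
  wlog h : j ≤ i with H
  · obtain ⟨e, h1, h2⟩ := H k j i hj hi (by omega)
    refine ⟨e, fun x => ?_, ?_⟩
    · rw [mul_comm, h1]
    · rw [h2]
      simp only [eq_comm]
  · refine ⟨fun n => ∑ l ∈ range (j + 1), if i + j - 2 * l = n then 1 else 0, fun x => ?_, ?_⟩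
    · rw [u_mul j i h]
      simp only [Finset.sum_mul]
      rw [Finset.sum_comm]
      refine sum_congr rfl fun l hl => ?_
      rw [Finset.mem_range] at hl
      rw [Finset.sum_eq_single (i + j - 2 * l)]
      · simp
      · intro n _ hn
        rw [if_neg hn.symm, zero_mul]
      · intro hn
        exact absurd (Finset.mem_range.2 (by omega)) hn
    · dsimp only
      by_cases hij : i = j
      · subst hij
        rw [if_pos rfl, Finset.sum_eq_single i]
        · rw [if_pos (by omega)]
        · intro l hl hli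
          rw [Finset.mem_range] at hl
          rw [if_neg (by omega)]
        · intro hn
          exact absurd (Finset.mem_range.2 (by omega)) hn
      · rw [if_neg hij]
        refine Finset.sum_eq_zero fun l hl => ?_
        rw [Finset.mem_range] at hl
        rw [if_neg (by omega)]

/-- Linearisation of a square. -/
theorem sq_lin (k : ℕ) (c : ℕ → ℝ) :
    ∃ d : ℕ → ℝ, (∀ x, (∑ i ∈ range (k + 1), c i * u i x) ^ 2 =
      ∑ n ∈ range (2 * k + 1), d n * u n x) ∧ d 0 = ∑ i ∈ range (k + 1), c i ^ 2 := by
  choose e he1 he2 using fun (i j : range (k + 1)) => u_mul_lin k i j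
    (by have := Finset.mem_range.1 i.2; omega) (by have := Finset.mem_range.1 j.2; omega)
  refine ⟨fun n => ∑ i : range (k + 1), ∑ j : range (k + 1), c i * c j * e i j n, fun x => ?_, ?_⟩
  · rw [← Finset.sum_coe_sort (range (k + 1)) (fun i => c i * u i x), sq, Finset.sum_mul_sum]
    simp only [Finset.sum_mul]
    rw [Finset.sum_comm (s := range (2 * k + 1))]
    refine Fintype.sum_congr _ _ fun i => ?_
    rw [Finset.sum_comm (s := range (2 * k + 1))]
    refine Fintype.sum_congr _ _ fun j => ?_
    have h1 : c i * u i x * (c j * u j x) = c i * c j * (u i x * u j x) := by ring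
    rw [h1, he1, Finset.mul_sum]
    exact sum_congr rfl fun n _ => by ring
  · rw [← Finset.sum_coe_sort (range (k + 1)) (fun i => c i ^ 2)]
    dsimp only
    refine Fintype.sum_congr _ _ fun i => ?_
    simp only [he2]
    rw [Finset.sum_eq_single i]
    · rw [if_pos rfl]; ring
    · intro j _ hj
      rw [if_neg (fun h => hj (Subtype.ext h.symm)), mul_zero]
    · intro h
      exact absurd (Finset.mem_univ i) h

/-- The sum of the squares of the traces of `Sym^i`, `i ≤ k`, `i ≡ k (mod 2)`, at `T`. -/
def W (k : ℕ) (T : ℝ) : ℝ := ∑ i ∈ range (k + 1), if (k + i) % 2 = 0 then u i T ^ 2 else 0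

theorem W_pos (k : ℕ) {T : ℝ} (hT : 2 ≤ T) : 0 < W k T := by
  have h1 : u k T ^ 2 ≤ W k T := by
    have h2 := Finset.single_le_sum (s := range (k + 1))
      (f := fun i => if (k + i) % 2 = 0 then u i T ^ 2 else 0) (fun i _ => by
        split_ifs <;> positivity) (Finset.mem_range.2 (Nat.lt_succ_self k))
    rw [if_pos (by omega)] at h2
    exact h2
  exact lt_of_lt_of_le (pow_pos (u_pos hT k) 2) h1

theorem W_continuous (k : ℕ) : Continuous (W k) := by
  unfold W
  refine continuous_finsetSum _ fun i _ => ?_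
  split_ifs
  · exact (u_continuous i).pow 2
  · exact continuous_const

/-- The identity behind the extremal measure. -/
theorem W_id (k : ℕ) {a : ℝ} (ha : a ≠ 0) :
    ∑ i ∈ range (k + 1), u i a ^ 2 + u (k + 1) a * u k a / a = 2 * W k a := by
  have h1 : u (k + 1) a * u k a / a =
      ∑ i ∈ range (k + 1), (if (k + i) % 2 = 0 then u i a ^ 2 else -u i a ^ 2) := by
    induction k with
    | zero => simp [ha]
    | succ k ih =>
      rw [Finset.sum_range_succ, if_pos (by omega)]
      have h2 : ∑ i ∈ range (k + 1), (if (k + 1 + i) % 2 = 0 then u i a ^ 2 else -u i a ^ 2) =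
          - ∑ i ∈ range (k + 1), (if (k + i) % 2 = 0 then u i a ^ 2 else -u i a ^ 2) := by
        rw [← Finset.sum_neg_distrib]
        refine sum_congr rfl fun i _ => ?_
        by_cases h : (k + i) % 2 = 0
        · rw [if_pos h, if_neg (by omega)]
        · rw [if_neg h, if_pos (by omega)]
          ring
      rw [h2, ← ih, u_add_two]
      field_simp
      ring
  rw [h1, W, ← Finset.sum_add_distrib, Finset.mul_sum]
  refine sum_congr rfl fun i _ => ?_
  split_ifs <;> ring

theorem W_two (k : ℕ) : W k 2 = (k + 1) * (k + 2) * (k + 3) / 6 := by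
  have hu : ∀ n, u n 2 = n + 1 := by
    intro n
    induction n using Nat.strong_induction_on with
    | _ n ih =>
      match n with
      | 0 => simp
      | 1 => norm_num
      | n + 2 =>
        rw [u_add_two, ih (n + 1) (by omega), ih n (by omega)]
        push_cast
        ring
  have h2 : ∀ k, W (k + 2) 2 = W k 2 + (k + 3 : ℝ) ^ 2 := by
    intro k
    rw [W, Finset.sum_range_succ, Finset.sum_range_succ,
      if_neg (show ¬ (k + 2 + (k + 1)) % 2 = 0 by omega),
      if_pos (show (k + 2 + (k + 2)) % 2 = 0 by omega), W, hu]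
    push_cast
    have : ∑ i ∈ range (k + 1), (if (k + 2 + i) % 2 = 0 then u i 2 ^ 2 else 0) =
        ∑ i ∈ range (k + 1), (if (k + i) % 2 = 0 then u i 2 ^ 2 else 0) := by
      refine sum_congr rfl fun i _ => ?_
      have : (k + 2 + i) % 2 = (k + i) % 2 := by omega
      rw [this]
    rw [this]
    ring
  induction k using Nat.strong_induction_on with
  | _ k ih =>
    match k with
    | 0 => norm_num [W]
    | 1 => norm_num [W, Finset.sum_range_succ]
    | k + 2 =>
      rw [h2, ih k (by omega)]
      push_cast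
      ring

/-- The kernel is large outside of `(-T, T)`. -/
theorem kernel_ge (k : ℕ) {T x : ℝ} (hT : 2 ≤ T) (hx : T ≤ |x|) :
    W k T ^ 2 ≤ (∑ i ∈ range (k + 1), (if (k + i) % 2 = 0 then u i T else 0) * u i x) ^ 2 := by
  have key : ∀ y, T ≤ y →
      W k T ≤ ∑ i ∈ range (k + 1), (if (k + i) % 2 = 0 then u i T else 0) * u i y := by
    intro y hy
    rw [W]
    refine Finset.sum_le_sum fun i _ => ?_
    split_ifs
    · rw [sq]
      exact mul_le_mul_of_nonneg_left (u_le hT hy i) (u_pos hT i).le
    · simp
  have hW := W_pos k hT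
  rcases le_total 0 x with h | h
  · rw [abs_of_nonneg h] at hx
    exact pow_le_pow_left₀ hW.le (key x hx) 2
  · rw [abs_of_nonpos h] at hx
    have h1 : ∑ i ∈ range (k + 1), (if (k + i) % 2 = 0 then u i T else 0) * u i x =
        (-1) ^ k * ∑ i ∈ range (k + 1), (if (k + i) % 2 = 0 then u i T else 0) * u i (-x) := by
      rw [Finset.mul_sum]
      refine sum_congr rfl fun i _ => ?_
      by_cases hi : (k + i) % 2 = 0
      · rw [if_pos hi, u_neg]
        have h2 : (-1 : ℝ) ^ k * (-1) ^ i = 1 := by
          rw [← pow_add]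
          exact Even.neg_one_pow (Nat.even_iff.2 hi)
        linear_combination (-(u i T * u i x)) * h2
      · rw [if_neg hi]; ring
    have h3 : ((-1 : ℝ) ^ 2) ^ k = 1 := by norm_num
    rw [h1, mul_pow, ← pow_mul, mul_comm k 2, pow_mul, h3, one_mul]
    exact pow_le_pow_left₀ hW.le (key (-x) hx) 2

end Pool.Agent.H414.GRC
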