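import Pool.Agent.H414.GRC.Cheb

/-!
The upper bound for the density of the primes with a large trace.
-/

set_option autoImplicit false

namespace Pool.Agent.H414.GRC

open Finset Filter Topology

/-- The local factor of `L(s, Sym^n)` at a prime with the Satake parameters `α, α⁻¹`; `z = p^{-s}`
or `z = χ(p) p^{-s}`. -/
noncomputable def symFactor (n : ℕ) (α z : ℂ) : ℂ :=
  ∏ l : Fin (n + 1), (1 - α ^ ((n : ℤ) - 2 * (l : ℤ)) * z)⁻¹

/-- Unramified unitary parameters, with a bound for which the local factors of `Sym^n`, `n ≤ 2 k`,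
are finite for `Re s ≥ 1`. -/
structure IsSatake (k : ℕ) (α : Nat.Primes → ℂ) : Prop where
  ne : ∀ p, α p ≠ 0
  unitary : ∀ p, ‖α p‖ = 1 ∨ (α p).im = 0
  bound : ∀ p, ‖α p‖ ^ (2 * k) < (p : ℕ) ∧ ‖(α p)⁻¹‖ ^ (2 * k) < (p : ℕ)

/-- The known properties of the symmetric power `L`-functions. -/
def Known (k : ℕ) (S : Finset Nat.Primes) (α : Nat.Primes → ℂ) : Prop :=
  ∀ n : ℕ, 1 ≤ n → n ≤ 2 * k →
    (∀ s : ℝ, 1 < s → Multipliable fun p : Nat.Primes =>
      if p ∈ S then 1 else symFactor n (α p) ((p : ℂ) ^ (-(s : ℂ)))) ∧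
    ∃ c : ℂ, c ≠ 0 ∧ Tendsto (fun s : ℝ => ∏' p : Nat.Primes,
      if p ∈ S then 1 else symFactor n (α p) ((p : ℂ) ^ (-(s : ℂ)))) (𝓝[>] 1) (𝓝 c)

theorem sum_zpow (α : ℂ) (hα : α ≠ 0) (t : ℝ) (ht : α + α⁻¹ = t) (n : ℕ) :
    ∑ l ∈ range (n + 1), α ^ ((n : ℤ) - 2 * (l : ℤ)) = (u n t : ℂ) := by
  induction n using Nat.strong_induction_on with
  | _ n ih =>
    match n with
    | 0 => simp
    | 1 =>
      rw [sum_range_succ, sum_range_succ, range_zero, sum_empty, zero_add, u_one, ← ht]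
      norm_num
    | n + 2 =>
      have h1 := ih (n + 1) (by omega)
      have h2 := ih n (by omega)
      rw [u_add_two]
      push_cast
      rw [← ht, ← h1, ← h2, add_mul, mul_sum, mul_sum, sum_range_succ (n := n + 2),
        sum_range_succ (n := n + 1) (f := fun l => α⁻¹ * α ^ (((n + 1 : ℕ) : ℤ) - 2 * (l : ℤ)))]
      have e1 : ∑ l ∈ range (n + 1 + 1), α * α ^ (((n + 1 : ℕ) : ℤ) - 2 * (l : ℤ)) =
          ∑ l ∈ range (n + 2), α ^ (((n : ℤ) + 2) - 2 * (l : ℤ)) := by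
        refine sum_congr rfl fun l _ => ?_
        rw [← zpow_one_add₀ hα]
        congr 1
        push_cast
        ring
      have e2 : ∑ l ∈ range (n + 1), α⁻¹ * α ^ (((n + 1 : ℕ) : ℤ) - 2 * (l : ℤ)) =
          ∑ l ∈ range (n + 1), α ^ ((n : ℤ) - 2 * (l : ℤ)) := by
        refine sum_congr rfl fun l _ => ?_
        rw [← zpow_neg_one, ← zpow_add₀ hα]
        congr 1
        push_cast
        ring
      have e3 : α⁻¹ * α ^ (((n + 1 : ℕ) : ℤ) - 2 * ((n + 1 : ℕ) : ℤ)) =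
          α ^ (((n : ℤ) + 2) - 2 * ((n + 2 : ℕ) : ℤ)) := by
        rw [← zpow_neg_one, ← zpow_add₀ hα]
        congr 1
        push_cast
        ring
      rw [e1, e2, e3]
      push_cast
      ring

theorem real_trace {α : ℂ} (hα : α ≠ 0) (h : ‖α‖ = 1 ∨ α.im = 0) (m : ℕ) :
    ∃ t : ℝ, α ^ m + (α ^ m)⁻¹ = t := by
  rcases h with h | h
  · refine ⟨2 * (α ^ m).re, ?_⟩
    have h1 : ‖α ^ m‖ = 1 := by rw [norm_pow, h, one_pow]
    rw [Complex.inv_eq_conj h1, Complex.add_conj]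
  · obtain ⟨x, rfl⟩ : ∃ x : ℝ, α = x := ⟨α.re, Complex.ext rfl (by simpa using h)⟩
    exact ⟨x ^ m + (x ^ m)⁻¹, by push_cast; rfl⟩

theorem norm_zpow_le {α : ℂ} (hα : α ≠ 0) {K : ℕ} {B : ℝ} (h1 : ‖α‖ ^ K < B)
    (h2 : ‖α⁻¹‖ ^ K < B) (j : ℤ) (hj : |j| ≤ K) : ‖α ^ j‖ < B := by
  have key : ∀ x : ℝ, 0 < x → x ^ K < B → (x⁻¹) ^ K < B → ∀ i : ℕ, i ≤ K → x ^ i < B := by
    intro x hx h1 h2 i hi
    rcases le_total 1 x with h | h
    · exact (pow_le_pow_right₀ h hi).trans_lt h1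
    · have h3 : (1 : ℝ) ≤ (x⁻¹) ^ K := one_le_pow₀ ((one_le_inv₀ hx).2 h)
      exact (pow_le_one₀ hx.le h).trans_lt (h3.trans_lt h2)
  have hpos : 0 < ‖α‖ := norm_pos_iff.2 hα
  rcases Int.eq_nat_or_neg j with ⟨i, hi | hi⟩
  · rw [hi, zpow_natCast, norm_pow]
    refine key _ hpos h1 (by rwa [norm_inv] at h2) i ?_
    rw [hi] at hj
    simpa using hj
  · rw [hi, zpow_neg, zpow_natCast, ← inv_pow, norm_pow]
    refine key _ (norm_pos_iff.2 (inv_ne_zero hα)) h2 (by rw [norm_inv, inv_inv]; exact h1) i ?_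
    rw [hi] at hj
    simpa using hj

/-- The logarithm of a local factor. -/
theorem log_symFactor {α : ℂ} (hα : α ≠ 0) (h : ‖α‖ = 1 ∨ α.im = 0) {k : ℕ} {B z : ℝ}
    (h1 : ‖α‖ ^ (2 * k) < B) (h2 : ‖α⁻¹‖ ^ (2 * k) < B) (hz : 0 < z) (hzB : B * z ≤ 1)
    (t : ℕ → ℝ) (ht : ∀ m, α ^ m + (α ^ m)⁻¹ = t m) (n : ℕ) (hn : n ≤ 2 * k) :
    symFactor n α z ≠ 0 ∧
    HasSum (fun m : ℕ => u n (t m) * (z ^ m / m)) (Real.log ‖symFactor n α z‖) := by
  have hlt : ∀ l : Fin (n + 1), ‖α ^ ((n : ℤ) - 2 * (l : ℤ)) * z‖ < 1 := by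
    intro l
    have h3 := l.2
    have h4 := norm_zpow_le hα h1 h2 ((n : ℤ) - 2 * (l : ℤ)) (by
      rw [abs_le]
      push_cast
      constructor <;> omega)
    rw [norm_mul, Complex.norm_real, Real.norm_eq_abs, abs_of_pos hz]
    exact lt_of_lt_of_le (mul_lt_mul_of_pos_right h4 hz) hzB
  have hne : ∀ l : Fin (n + 1), 1 - α ^ ((n : ℤ) - 2 * (l : ℤ)) * z ≠ 0 := by
    intro l h3
    have h4 := hlt l
    rw [← sub_eq_zero.1 h3] at h4
    simp at h4
  constructor
  · exact Finset.prod_ne_zero_iff.2 fun l _ => inv_ne_zero (hne l)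
  · have h3 : ∀ l : Fin (n + 1), HasSum (fun m : ℕ =>
        ((α ^ ((n : ℤ) - 2 * (l : ℤ)) * z) ^ m / m : ℂ).re)
        (-Real.log ‖1 - α ^ ((n : ℤ) - 2 * (l : ℤ)) * z‖) := by
      intro l
      have h4 := Complex.hasSum_re (Complex.hasSum_taylorSeries_neg_log (hlt l))
      rwa [Complex.neg_re, Complex.log_re] at h4
    have h4 := hasSum_sum (s := Finset.univ) fun (l : Fin (n + 1)) _ => h3 l
    have h5 : ∑ l : Fin (n + 1), -Real.log ‖1 - α ^ ((n : ℤ) - 2 * (l : ℤ)) * z‖ =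
        Real.log ‖symFactor n α z‖ := by
      rw [symFactor, norm_prod, Real.log_prod (fun l _ => by
        rw [norm_ne_zero_iff]; exact inv_ne_zero (hne l))]
      refine Fintype.sum_congr _ _ fun l => ?_
      rw [norm_inv, Real.log_inv]
    rw [h5] at h4
    refine h4.congr_fun ?_ |> fun h => h
    intro m
    have h6 := sum_zpow (α ^ m) (pow_ne_zero m hα) (t m) (ht m) n
    rw [← Fin.sum_univ_eq_sum_range (fun l => (α ^ m) ^ ((n : ℤ) - 2 * (l : ℤ)))] at h6
    have h7 : ((u n (t m) * (z ^ m / m) : ℝ) : ℂ) =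
        ∑ l : Fin (n + 1), ((α ^ ((n : ℤ) - 2 * (l : ℤ)) * z) ^ m / m : ℂ) := by
      push_cast
      rw [← h6, Finset.sum_mul]
      refine Fintype.sum_congr _ _ fun l => ?_
      rw [mul_pow, ← zpow_natCast, ← zpow_mul, ← zpow_natCast (α ^ _), ← zpow_mul,
        mul_comm ((m : ℕ) : ℤ)]
      ring
    rw [← Complex.re_sum, ← h7, Complex.ofReal_re]

/-- The positivity argument at a prime. -/
theorem local_ineq {α : ℂ} (hα : α ≠ 0) (h : ‖α‖ = 1 ∨ α.im = 0) {k : ℕ} {B z : ℝ}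
    (h1 : ‖α‖ ^ (2 * k) < B) (h2 : ‖α⁻¹‖ ^ (2 * k) < B) (hz : 0 < z) (hzB : B * z ≤ 1)
    (c d : ℕ → ℝ) (hd : ∀ x, (∑ i ∈ range (k + 1), c i * u i x) ^ 2 =
      ∑ n ∈ range (2 * k + 1), d n * u n x) (x : ℝ) (hx : α + α⁻¹ = x) :
    z * (∑ i ∈ range (k + 1), c i * u i x) ^ 2 ≤
      ∑ n ∈ range (2 * k + 1), d n * Real.log ‖symFactor n α z‖ := by
  choose t ht using fun m => real_trace hα h m
  have h3 : HasSum (fun m : ℕ => (∑ i ∈ range (k + 1), c i * u i (t m)) ^ 2 * (z ^ m / m))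
      (∑ n ∈ range (2 * k + 1), d n * Real.log ‖symFactor n α z‖) := by
    have h4 := hasSum_sum (s := range (2 * k + 1)) (f := fun n (m : ℕ) =>
      d n * (u n (t m) * (z ^ m / m))) fun n hn =>
      (log_symFactor hα h h1 h2 hz hzB t ht n (by
        have := Finset.mem_range.1 hn; omega)).2.mul_left (d n)
    refine h4.congr_fun ?_ |> fun h => h
    intro m
    rw [hd, Finset.sum_mul]
    exact sum_congr rfl fun n _ => by ring
  have hx1 : t 1 = x := by
    have h5 := ht 1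
    rw [pow_one, hx] at h5
    exact_mod_cast h5.symm
  have h6 := h3.summable.le_tsum 1 (fun m _ => by positivity)
  rw [h3.tsum_eq, hx1] at h6
  simp only [pow_one, Nat.cast_one, div_one] at h6
  linarith

theorem hasSum_log {ι : Type*} {F : ι → ℂ} {P : ℂ} (h : HasProd F P) (hP : P ≠ 0)
    (hF : ∀ i, F i ≠ 0) : HasSum (fun i => Real.log ‖F i‖) (Real.log ‖P‖) := by
  have h1 : Tendsto (fun s : Finset ι => Real.log ‖∏ i ∈ s, F i‖) atTop (𝓝 (Real.log ‖P‖)) :=
    ((Real.continuousAt_log (norm_ne_zero_iff.2 hP)).tendsto.comp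
      (continuous_norm.tendsto P)).comp h
  refine h1.congr fun s => ?_
  rw [norm_prod, Real.log_prod (fun i _ => norm_ne_zero_iff.2 (hF i))]

theorem upper (k : ℕ) (T : ℝ) (hT : 2 ≤ T) (S : Finset Nat.Primes) (α : Nat.Primes → ℂ)
    (hα : IsSatake k α) (hL : Known k S α) :
    ∃ C : ℝ, ∀ᶠ s : ℝ in 𝓝[>] 1,
      ∑' p : Nat.Primes, (if ‖α p‖ ≠ 1 ∧ T ≤ ‖α p + (α p)⁻¹‖ then (p : ℝ) ^ (-s) else 0) ≤
        (1 / W k T) * Real.log (1 / (s - 1)) + C := by
  classical
  obtain ⟨d, hd, hd0⟩ := sq_lin k (fun i => if (k + i) % 2 = 0 then u i T else 0)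
  have hd0' : d 0 = W k T := by
    rw [hd0, W]
    refine sum_congr rfl fun i _ => ?_
    split_ifs <;> simp
  have hW := W_pos k hT
  -- the logarithms of the `L`-functions are bounded near `1`
  have hlim : ∀ n : ℕ, ∃ K : ℝ, 1 ≤ n → n ≤ 2 * k → ∀ᶠ s : ℝ in 𝓝[>] 1,
      HasSum (fun p : Nat.Primes => Real.log ‖if p ∈ S then (1 : ℂ) else
        symFactor n (α p) ((p : ℂ) ^ (-(s : ℂ)))‖) (Real.log ‖∏' p : Nat.Primes,
        if p ∈ S then (1 : ℂ) else symFactor n (α p) ((p : ℂ) ^ (-(s : ℂ)))‖) ∧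
      |Real.log ‖∏' p : Nat.Primes,
        if p ∈ S then (1 : ℂ) else symFactor n (α p) ((p : ℂ) ^ (-(s : ℂ)))‖| ≤ K := by
    intro n
    by_cases hn1 : 1 ≤ n ∧ n ≤ 2 * k
    · obtain ⟨hm, c, hc, hct⟩ := hL n hn1.1 hn1.2
      have h1 := ((Real.continuousAt_log (norm_ne_zero_iff.2 hc)).tendsto.comp
        (continuous_norm.tendsto c)).comp hct
      refine ⟨|Real.log ‖c‖| + 1, fun _ _ => ?_⟩
      have h2 := hct.eventually_ne hc
      have h3 := h1.abs.eventually_le_const (u := |Real.log ‖c‖| + 1) (by linarith)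
      filter_upwards [h2, h3, self_mem_nhdsWithin] with s e1 e2 e3
      have hs : 1 < s := e3
      refine ⟨hasSum_log (hm s hs).hasProd e1 fun p => ?_, e2⟩
      split_ifs
      · exact one_ne_zero
      · choose t ht using fun m => real_trace (hα.ne p) (hα.unitary p) m
        have hp : (0 : ℝ) < (p : ℕ) := by exact_mod_cast p.2.pos
        have hcast : ((p : ℂ) ^ (-(s : ℂ))) = (((p : ℝ) ^ (-s) : ℝ) : ℂ) := by
          rw [Complex.ofReal_cpow hp.le]
          push_cast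
          rfl
        rw [hcast]
        refine (log_symFactor (hα.ne p) (hα.unitary p) (hα.bound p).1 (hα.bound p).2
          (Real.rpow_pos_of_pos hp _) ?_ t ht n hn1.2).1
        rw [Real.rpow_neg hp.le]
        have h6 : (p : ℝ) ≤ (p : ℝ) ^ s := by
          have h5 : (1 : ℝ) ≤ (p : ℕ) := by exact_mod_cast p.2.one_lt.le
          calc (p : ℝ) = (p : ℝ) ^ (1 : ℝ) := (Real.rpow_one _).symm
            _ ≤ _ := Real.rpow_le_rpow_of_exponent_le h5 hs.le
        rw [← div_eq_mul_inv, div_le_one (by positivity)]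
        exact h6
    · exact ⟨0, fun h1 h2 => absurd ⟨h1, h2⟩ hn1⟩
  choose K hK using hlim
  -- zeta
  have hzeta : ∀ᶠ s : ℝ in 𝓝[>] 1, ∀ L : ℝ, L = Real.log ‖riemannZeta s‖ →
      L ≤ Real.log (1 / (s - 1)) + 1 := by
    have h1 : Tendsto (fun s : ℝ => ‖((s : ℂ) - 1) * riemannZeta s‖) (𝓝[>] 1) (𝓝 1) := by
      have h2 := riemannZeta_residue_one
      have h3 : Tendsto (fun s : ℝ => (s : ℂ)) (𝓝[>] 1) (𝓝[≠] 1) := by
        refine tendsto_nhdsWithin_iff.2 ⟨?_, ?_⟩
        · have := Complex.continuous_ofReal.tendsto 1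
          rw [Complex.ofReal_one] at this
          exact this.mono_left nhdsWithin_le_nhds
        · filter_upwards [self_mem_nhdsWithin] with s hs
          have hs : 1 < s := hs
          intro h
          rw [Set.mem_singleton_iff] at h
          have : s = 1 := by exact_mod_cast h
          linarith
      have h4 := (h2.comp h3).norm
      rw [norm_one] at h4
      exact h4
    have h2 : ∀ᶠ s : ℝ in 𝓝[>] 1, ‖((s : ℂ) - 1) * riemannZeta s‖ ≤ 2 :=
      h1.eventually_le_const (by norm_num)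
    filter_upwards [h2, self_mem_nhdsWithin] with s e1 e2 L hL
    have hs : 1 < s := e2
    rw [hL]
    have hs1 : 0 < s - 1 := by linarith
    have h3 : ‖((s : ℂ) - 1)‖ = s - 1 := by
      rw [show ((s : ℂ) - 1) = ((s - 1 : ℝ) : ℂ) by push_cast; rfl, Complex.norm_real,
        Real.norm_eq_abs, abs_of_pos hs1]
    rw [norm_mul, h3] at e1
    have h4 : riemannZeta (s : ℂ) ≠ 0 := riemannZeta_ne_zero_of_one_le_re (by
      rw [Complex.ofReal_re]; exact hs.le)
    have h5 : Real.log ((s - 1) * ‖riemannZeta s‖) ≤ Real.log 2 :=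
      Real.log_le_log (mul_pos hs1 (norm_pos_iff.2 h4)) e1
    rw [Real.log_mul hs1.ne' (norm_ne_zero_iff.2 h4)] at h5
    rw [one_div, Real.log_inv]
    have := Real.log_two_lt_d9
    linarith
  refine ⟨(W k T + ∑ n ∈ range (2 * k + 1), |d n| * |K n|) / W k T ^ 2 + S.card, ?_⟩
  have hall : ∀ᶠ s : ℝ in 𝓝[>] 1, ∀ n ∈ range (2 * k + 1), 1 ≤ n → n ≤ 2 * k →
      HasSum (fun p : Nat.Primes => Real.log ‖if p ∈ S then (1 : ℂ) else
        symFactor n (α p) ((p : ℂ) ^ (-(s : ℂ)))‖) (Real.log ‖∏' p : Nat.Primes,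
        if p ∈ S then (1 : ℂ) else symFactor n (α p) ((p : ℂ) ^ (-(s : ℂ)))‖) ∧
      |Real.log ‖∏' p : Nat.Primes,
        if p ∈ S then (1 : ℂ) else symFactor n (α p) ((p : ℂ) ^ (-(s : ℂ)))‖| ≤ K n := by
    rw [Finset.eventually_all]
    intro n _
    by_cases hn : 1 ≤ n ∧ n ≤ 2 * k
    · filter_upwards [hK n hn.1 hn.2] with s hs _ _ using hs
    · exact Eventually.of_forall fun s h1 h2 => absurd ⟨h1, h2⟩ hn
  filter_upwards [hall, hzeta, self_mem_nhdsWithin] with s e1 e2 e3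
  have hs : 1 < s := e3
  have hp0 : ∀ p : Nat.Primes, (0 : ℝ) < (p : ℕ) := fun p => by exact_mod_cast p.2.pos
  have hcast : ∀ p : Nat.Primes, ((p : ℂ) ^ (-(s : ℂ))) = (((p : ℝ) ^ (-s) : ℝ) : ℂ) := by
    intro p
    rw [Complex.ofReal_cpow (hp0 p).le]
    push_cast
    rfl
  have hz1 : ∀ p : Nat.Primes, (p : ℝ) ^ (-s) ≤ 1 := fun p =>
    Real.rpow_le_one_of_one_le_of_nonpos (by exact_mod_cast p.2.one_lt.le) (by linarith)
  have hz : ∀ p : Nat.Primes, (p : ℝ) * (p : ℝ) ^ (-s) ≤ 1 := by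
    intro p
    rw [Real.rpow_neg (hp0 p).le]
    have h6 : (p : ℝ) ≤ (p : ℝ) ^ s := by
      have h5 : (1 : ℝ) ≤ (p : ℕ) := by exact_mod_cast p.2.one_lt.le
      calc (p : ℝ) = (p : ℝ) ^ (1 : ℝ) := (Real.rpow_one _).symm
        _ ≤ _ := Real.rpow_le_rpow_of_exponent_le h5 hs.le
    rw [← div_eq_mul_inv, div_le_one (Real.rpow_pos_of_pos (hp0 p) _)]
    exact h6
  -- the zeroth symmetric power
  have h0 : HasSum (fun p : Nat.Primes => Real.log ‖symFactor 0 (α p) ((p : ℂ) ^ (-(s : ℂ)))‖)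
      (Real.log ‖riemannZeta s‖) := by
    refine hasSum_log ?_ (riemannZeta_ne_zero_of_one_le_re (by
      rw [Complex.ofReal_re]; exact hs.le)) fun p => ?_
    · have h1 := riemannZeta_eulerProduct_hasProd (s := (s : ℂ)) (by simpa using hs)
      refine h1.congr_fun ?_ |> fun h => h
      intro p
      simp [symFactor]
    · choose t ht using fun m => real_trace (hα.ne p) (hα.unitary p) m
      rw [hcast]
      exact (log_symFactor (hα.ne p) (hα.unitary p) (hα.bound p).1 (hα.bound p).2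
        (Real.rpow_pos_of_pos (hp0 p) _) (hz p) t ht 0 (by omega)).1
  have h0nonneg : ∀ p : Nat.Primes,
      0 ≤ Real.log ‖symFactor 0 (α p) ((p : ℂ) ^ (-(s : ℂ)))‖ := by
    intro p
    choose t ht using fun m => real_trace (hα.ne p) (hα.unitary p) m
    rw [hcast]
    refine (log_symFactor (hα.ne p) (hα.unitary p) (hα.bound p).1 (hα.bound p).2
        (Real.rpow_pos_of_pos (hp0 p) _) (hz p) t ht 0 (by omega)).2.nonneg fun m => ?_
    rw [u_zero, one_mul]
    have := Real.rpow_pos_of_pos (hp0 p) (-s)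
    positivity
  set ℓ : ℕ → Nat.Primes → ℝ := fun n p => Real.log ‖if p ∈ S then (1 : ℂ) else
    symFactor n (α p) ((p : ℂ) ^ (-(s : ℂ)))‖ with hℓ
  have hℓ0s : Summable (ℓ 0) := by
    refine Summable.of_nonneg_of_le (fun p => ?_) (fun p => ?_) h0.summable
    · simp only [hℓ]
      split_ifs
      · simp
      · exact h0nonneg p
    · simp only [hℓ]
      split_ifs
      · simpa using h0nonneg p
      · exact le_rfl
  have hℓ0 : ∑' p, ℓ 0 p ≤ Real.log (1 / (s - 1)) + 1 := by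
    refine le_trans ?_ (e2 _ rfl)
    rw [← h0.tsum_eq]
    refine hℓ0s.tsum_le_tsum (fun p => ?_) h0.summable
    simp only [hℓ]
    split_ifs
    · simpa using h0nonneg p
    · exact le_rfl
  have hℓs : ∀ n ∈ range (2 * k + 1), Summable (ℓ n) := by
    intro n hn
    rcases Nat.eq_zero_or_pos n with h | h
    · rw [h]; exact hℓ0s
    · exact (e1 n hn h (by have := Finset.mem_range.1 hn; omega)).1.summable
  have hℓK : ∀ n ∈ range (2 * k + 1), n ≠ 0 → |∑' p, ℓ n p| ≤ K n := by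
    intro n hn h
    have h1 := e1 n hn (by omega) (by have := Finset.mem_range.1 hn; omega)
    rw [h1.1.tsum_eq]
    exact h1.2
  -- the main inequality at each prime
  set E : Nat.Primes → ℝ := fun p =>
    if ‖α p‖ ≠ 1 ∧ T ≤ ‖α p + (α p)⁻¹‖ then (p : ℝ) ^ (-s) else 0 with hE
  have hE0 : ∀ p, 0 ≤ E p := by
    intro p
    simp only [hE]
    split_ifs
    · exact (Real.rpow_pos_of_pos (hp0 p) _).le
    · exact le_rfl
  have hEle : ∀ p, E p ≤ (p : ℝ) ^ (-s) := by
    intro p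
    simp only [hE]
    split_ifs
    · exact le_rfl
    · exact (Real.rpow_pos_of_pos (hp0 p) _).le
  have hEs : Summable E := Summable.of_nonneg_of_le hE0 hEle
    (Nat.Primes.summable_rpow.2 (by linarith))
  set E' : Nat.Primes → ℝ := fun p => if p ∈ S then 0 else E p with hE'
  have hE's : Summable E' := by
    refine Summable.of_nonneg_of_le (fun p => ?_) (fun p => ?_) hEs
    · simp only [hE']
      split_ifs
      · exact le_rfl
      · exact hE0 p
    · simp only [hE']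
      split_ifs
      · exact hE0 p
      · exact le_rfl
  have hmain : ∀ p, W k T ^ 2 * E' p ≤ ∑ n ∈ range (2 * k + 1), d n * ℓ n p := by
    intro p
    by_cases hp : p ∈ S
    · simp [hE', hℓ, hp]
    · simp only [hE', hℓ, if_neg hp]
      rw [hcast]
      obtain ⟨x, hx⟩ := real_trace (hα.ne p) (hα.unitary p) 1
      rw [pow_one] at hx
      have h1 := local_ineq (hα.ne p) (hα.unitary p) (hα.bound p).1 (hα.bound p).2
        (Real.rpow_pos_of_pos (hp0 p) (-s)) (hz p) _ d hd x hx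
      refine le_trans ?_ h1
      simp only [hE]
      split_ifs with h2
      · rw [mul_comm]
        refine mul_le_mul_of_nonneg_left ?_ (Real.rpow_pos_of_pos (hp0 p) _).le
        have h3 : T ≤ |x| := by
          have := h2.2
          rw [hx, Complex.norm_real] at this
          exact this
        exact kernel_ge k hT h3
      · rw [mul_zero]
        have := Real.rpow_pos_of_pos (hp0 p) (-s)
        positivity
  have h1 : W k T ^ 2 * ∑' p, E' p ≤ ∑ n ∈ range (2 * k + 1), d n * ∑' p, ℓ n p := by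
    have h2 : ∑ n ∈ range (2 * k + 1), d n * ∑' p, ℓ n p =
        ∑' p, ∑ n ∈ range (2 * k + 1), d n * ℓ n p := by
      rw [Summable.tsum_finsetSum (fun n hn => (hℓs n hn).mul_left _)]
      exact sum_congr rfl fun n _ => tsum_mul_left.symm
    rw [h2, ← tsum_mul_left]
    exact (hE's.mul_left _).tsum_le_tsum hmain (summable_sum fun n hn => (hℓs n hn).mul_left _)
  have h2 : ∑ n ∈ range (2 * k + 1), d n * ∑' p, ℓ n p ≤
      W k T * (Real.log (1 / (s - 1)) + 1) + ∑ n ∈ range (2 * k + 1), |d n| * |K n| := by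
    rw [Finset.sum_range_succ' (fun n => d n * ∑' p, ℓ n p), hd0', add_comm]
    refine add_le_add (mul_le_mul_of_nonneg_left hℓ0 hW.le) ?_
    rw [Finset.sum_range_succ' (fun n => |d n| * |K n|)]
    refine le_add_of_le_of_nonneg ?_ (by positivity)
    refine Finset.sum_le_sum fun n hn => ?_
    have h3 := hℓK (n + 1) (by have := Finset.mem_range.1 hn; exact Finset.mem_range.2 (by omega))
      (by omega)
    calc d (n + 1) * ∑' p, ℓ (n + 1) p ≤ |d (n + 1) * ∑' p, ℓ (n + 1) p| := le_abs_self _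
      _ = |d (n + 1)| * |∑' p, ℓ (n + 1) p| := abs_mul _ _
      _ ≤ _ := mul_le_mul_of_nonneg_left (h3.trans (le_abs_self _)) (abs_nonneg _)
  have h3 : ∑' p, E p ≤ ∑' p, E' p + S.card := by
    have h4 : ∑' p, E p - ∑' p, E' p = ∑' p, (E p - E' p) := (hEs.tsum_sub hE's).symm
    have h5 : ∑' p, (E p - E' p) = ∑ p ∈ S, (E p - E' p) := by
      refine tsum_eq_sum fun p hp => ?_
      simp [hE', hp]
    have h6 : ∑ p ∈ S, (E p - E' p) ≤ ∑ _p ∈ S, (1 : ℝ) := by
      refine Finset.sum_le_sum fun p hp => ?_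
      simp only [hE', if_pos hp, sub_zero]
      exact (hEle p).trans (hz1 p)
    rw [Finset.sum_const, nsmul_eq_mul, mul_one] at h6
    linarith
  have h4 : ∑' p, E' p ≤ (1 / W k T) * Real.log (1 / (s - 1)) +
      (W k T + ∑ n ∈ range (2 * k + 1), |d n| * |K n|) / W k T ^ 2 := by
    have h5 := h1.trans h2
    have h6 : ∑' p, E' p ≤ (W k T * (Real.log (1 / (s - 1)) + 1) +
        ∑ n ∈ range (2 * k + 1), |d n| * |K n|) / W k T ^ 2 := by
      rw [le_div_iff₀ (by positivity)]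
      linarith
    refine h6.trans (le_of_eq ?_)
    field_simp
    ring
  linarith

end Pool.Agent.H414.GRC
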