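import Pool.Agent.H414.GRC.Quad
import Pool.Agent.H414.GRC.Upper
import Pool.Agent.H414.E.Dens

/-!
The extremal system of Satake parameters.
-/

set_option autoImplicit false

namespace Pool.Agent.H414.GRC

open Finset Filter Topology Pool.Agent.H414.E

/-- A Satake parameter with the trace `x`. -/
noncomputable def al (x : ℝ) : ℂ :=
  if |x| ≤ 2 then ((x : ℂ) + (Real.sqrt (4 - x ^ 2) : ℂ) * Complex.I) / 2
  else (((x + Real.sqrt (x ^ 2 - 4)) / 2 : ℝ) : ℂ)

theorem al_mul (x : ℝ) : al x * ((x : ℂ) - al x) = 1 := by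
  unfold al
  split_ifs with h
  · have h1 : (0 : ℝ) ≤ 4 - x ^ 2 := by
      have := abs_le.1 h
      nlinarith
    have h2 : ((Real.sqrt (4 - x ^ 2) : ℝ) : ℂ) ^ 2 = 4 - (x : ℂ) ^ 2 := by
      rw [← Complex.ofReal_pow, Real.sq_sqrt h1]
      push_cast
      ring
    have h3 : Complex.I ^ 2 = -1 := Complex.I_sq
    linear_combination ((Real.sqrt (4 - x ^ 2) : ℂ) ^ 2 * (-1 / 4)) * h3 + (1 / 4) * h2
  · have h1 : (0 : ℝ) ≤ x ^ 2 - 4 := by
      push Not at h
      nlinarith [sq_abs x, abs_nonneg x]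
    have h2 : Real.sqrt (x ^ 2 - 4) ^ 2 = x ^ 2 - 4 := Real.sq_sqrt h1
    have h3 : (x + Real.sqrt (x ^ 2 - 4)) / 2 * (x - (x + Real.sqrt (x ^ 2 - 4)) / 2) = 1 := by
      linear_combination (-1 / 4) * h2
    exact_mod_cast h3

theorem al_ne (x : ℝ) : al x ≠ 0 := by
  intro h
  have := al_mul x
  rw [h, zero_mul] at this
  exact zero_ne_one this

theorem al_inv (x : ℝ) : (al x)⁻¹ = (x : ℂ) - al x :=
  inv_eq_of_mul_eq_one_right (al_mul x)

theorem al_trace (x : ℝ) : al x + (al x)⁻¹ = x := by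
  rw [al_inv]
  ring

theorem al_norm {x : ℝ} (h : |x| ≤ 2) : ‖al x‖ = 1 := by
  have h1 : (0 : ℝ) ≤ 4 - x ^ 2 := by
    have := abs_le.1 h
    nlinarith
  rw [al, if_pos h, norm_div, Complex.norm_add_mul_I, Real.sq_sqrt h1]
  have : x ^ 2 + (4 - x ^ 2) = 2 ^ 2 := by ring
  rw [this, Real.sqrt_sq (by norm_num)]
  norm_num

theorem al_unitary (x : ℝ) : ‖al x‖ = 1 ∨ (al x).im = 0 := by
  by_cases h : |x| ≤ 2
  · exact Or.inl (al_norm h)
  · right
    rw [al, if_neg h, Complex.ofReal_im]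

theorem al_norm_ne {x : ℝ} (h : ¬ |x| ≤ 2) : ‖al x‖ ≠ 1 := by
  intro h1
  have h2 : (al x)⁻¹ = (starRingEnd ℂ) (al x) := Complex.inv_eq_conj h1
  have h3 := al_trace x
  have h4 : (starRingEnd ℂ) (al x) = al x := by
    rw [al, if_neg h, Complex.conj_ofReal]
  rw [h2, h4] at h3
  have h5 : ‖al x + al x‖ = 2 := by
    rw [← two_mul, norm_mul, h1]
    norm_num
  rw [h3, Complex.norm_real, Real.norm_eq_abs] at h5
  linarith

theorem al_norm_le {x M : ℝ} (hM : 1 ≤ M) (hx : |x| ≤ M) : ‖al x‖ ≤ M ∧ ‖(al x)⁻¹‖ ≤ M := by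
  by_cases h : |x| ≤ 2
  · rw [norm_inv, al_norm h, inv_one]
    exact ⟨hM, hM⟩
  · have h0 := h
    push Not at h
    have h1 : Real.sqrt (x ^ 2 - 4) ≤ |x| := by
      apply Real.sqrt_le_iff.2
      refine ⟨abs_nonneg x, ?_⟩
      rw [sq_abs]
      linarith
    have hs := Real.sqrt_nonneg (x ^ 2 - 4)
    constructor
    · rw [al, if_neg h0, Complex.norm_real, Real.norm_eq_abs]
      refine le_trans ?_ hx
      have := abs_add_le x (Real.sqrt (x ^ 2 - 4))
      rw [abs_of_nonneg hs] at this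
      rw [abs_div, abs_two]
      linarith
    · rw [al_inv, al, if_neg h0, ← Complex.ofReal_sub, Complex.norm_real, Real.norm_eq_abs]
      refine le_trans ?_ hx
      have h2 : x - (x + Real.sqrt (x ^ 2 - 4)) / 2 = (x - Real.sqrt (x ^ 2 - 4)) / 2 := by ring
      have := abs_sub x (Real.sqrt (x ^ 2 - 4))
      rw [abs_of_nonneg hs] at this
      rw [h2, abs_div, abs_two]
      linarith

theorem lower (k : ℕ) (hk : 1 ≤ k) (T : ℝ) (hT : 2 ≤ T) :
    ∃ α : ℕ → ℂ, IsSatake k (fun p : Nat.Primes => α p) ∧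
      (∀ p : Nat.Primes, ‖α p‖ ≤ T + 1 ∧ ‖(α p)⁻¹‖ ≤ T + 1) ∧
      (∀ n : ℕ, 1 ≤ n → n ≤ 2 * k → ∀ (q : ℕ) [NeZero q] (χ : DirichletCharacter ℂ q),
        ∃ h : ℂ → ℂ, DifferentiableOn ℂ h {s | 1 / 2 < s.re} ∧ ∀ s : ℂ, 1 < s.re →
          HasProd (fun p : Nat.Primes => symFactor n (α p) (χ p * (p : ℂ) ^ (-s)))
            (Complex.exp (h s))) ∧
      Known k ∅ (fun p : Nat.Primes => α p) ∧
      ∀ q a : ℕ, a < q → a.Coprime q → Tendsto (fun N : ℕ =>
        (((range N).filter fun p => (p.Prime ∧ p % q = a) ∧ ‖α p‖ ≠ 1 ∧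
          T ≤ ‖α p + (α p)⁻¹‖).card : ℝ) /
        ((range N).filter fun p => p.Prime ∧ p % q = a).card) atTop (𝓝 (1 / W k T)) := by
  classical
  set a : ℕ → ℝ := fun m => T + 1 / ((m : ℝ) + 1) with ha
  have ha1 : ∀ m, T < a m := by
    intro m
    simp only [ha]
    have : (0 : ℝ) < 1 / ((m : ℝ) + 1) := by positivity
    linarith
  have ha2 : ∀ m, a m ≤ T + 1 := by
    intro m
    simp only [ha]
    have : 1 / ((m : ℝ) + 1) ≤ 1 := by
      rw [div_le_one (by positivity)]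
      have : (0 : ℝ) ≤ m := Nat.cast_nonneg m
      linarith
    linarith
  have hat : Tendsto a atTop (𝓝 T) := by
    have := (tendsto_one_div_add_atTop_nhds_zero_nat (𝕜 := ℝ)).const_add T
    rw [add_zero] at this
    exact this
  choose lam w hw0 hw1 hlam hmom hwa using fun m => quad k hk (a m) (lt_of_le_of_lt hT (ha1 m))
  set y : (m : ℕ) → Fin (k + 2) → ℝ := fun m j => if m = 0 then 0 else lam m j with hy
  have hyb : ∀ m j, |y m j| ≤ T + 1 := by
    intro m j
    simp only [hy]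
    split_ifs
    · rw [abs_zero]; linarith
    · rcases hlam m j with h | h
      · linarith
      · rw [h]; exact ha2 m
  set R : ℝ := (T + 1) ^ (2 * k) + 1 with hR
  have hT1 : (1 : ℝ) ≤ T + 1 := by linarith
  have hR1 : (1 : ℝ) ≤ R := by
    have : (0 : ℝ) ≤ (T + 1) ^ (2 * k) := by positivity
    linarith
  obtain ⟨x, st, S⟩ := exists_follows (fun _ => k + 2) w y hw0 hw1 (⌈2 * R ^ 2⌉₊)
  have hN0 : 2 * R ^ 2 ≤ (⌈2 * R ^ 2⌉₊ : ℝ) := Nat.le_ceil _
  have hxb : ∀ p, |x p| ≤ T + 1 := by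
    intro p
    obtain ⟨j, hj⟩ := S.mem p
    rw [hj]
    exact hyb _ _
  have halR : ∀ t : ℝ, |t| ≤ T + 1 → ‖al t‖ ^ (2 * k) < R ∧ ‖(al t)⁻¹‖ ^ (2 * k) < R := by
    intro t ht
    obtain ⟨h1, h2⟩ := al_norm_le hT1 ht
    constructor
    · have := pow_le_pow_left₀ (norm_nonneg _) h1 (2 * k)
      linarith
    · have := pow_le_pow_left₀ (norm_nonneg _) h2 (2 * k)
      linarith
  have hmain : ∀ n : ℕ, 1 ≤ n → n ≤ 2 * k → ∀ (q : ℕ) [NeZero q] (χ : DirichletCharacter ℂ q),
        ∃ h : ℂ → ℂ, DifferentiableOn ℂ h {s | 1 / 2 < s.re} ∧ ∀ s : ℂ, 1 < s.re →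
          HasProd (fun p : Nat.Primes => symFactor n (al (x p)) (χ p * (p : ℂ) ^ (-s)))
            (Complex.exp (h s)) := by
    intro n hn1 hn2 q _ χ
    have g1 : ∀ m j (l : Fin (n + 1)), ‖al (y m j) ^ ((n : ℤ) - 2 * (l : ℤ))‖ ≤ R := by
      intro m j l
      have hl := l.2
      refine (norm_zpow_le (al_ne _) (halR _ (hyb m j)).1 (halR _ (hyb m j)).2 _ ?_).le
      rw [abs_le]
      push_cast
      constructor <;> omega
    have g2 : ∀ j (l : Fin (n + 1)), ‖al (y 0 j) ^ ((n : ℤ) - 2 * (l : ℤ))‖ ≤ 1 := by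
      intro j l
      have : y 0 j = 0 := by simp [hy]
      rw [this, norm_zpow, al_norm (by rw [abs_zero]; norm_num), one_zpow]
    have g3 : ∀ m, 1 ≤ m → mean w y m (fun t => ∑ l : Fin (n + 1),
        al t ^ ((n : ℤ) - 2 * (l : ℤ))) = 0 := by
      intro m hm
      rw [mean]
      have h3 : ∀ t : ℝ, ∑ l : Fin (n + 1), al t ^ ((n : ℤ) - 2 * (l : ℤ)) = (u n t : ℂ) := by
        intro t
        rw [← sum_zpow (al t) (al_ne t) t (al_trace t) n,
          ← Fin.sum_univ_eq_sum_range (fun l => al t ^ ((n : ℤ) - 2 * (l : ℤ)))]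
      simp only [h3]
      have h4 := moments (lam m) (w m) (hmom m) n hn1 hn2
      have h5 : ∀ j, y m j = lam m j := fun j => by
        simp only [hy]
        rw [if_neg (by omega)]
      simp only [h5]
      exact_mod_cast h4
    obtain ⟨h, h1, h2⟩ := S.lfun χ (fun t (l : Fin (n + 1)) => al t ^ ((n : ℤ) - 2 * (l : ℤ)))
      R (by linarith) g1 g2 hN0 0 1 g3
    refine ⟨h, h1, fun s hs => ?_⟩
    have h3 := h2 s hs
    rw [zero_mul, zero_add] at h3
    refine h3.congr_fun ?_ |> fun h => h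
    intro p
    rw [symFactor]
    exact Finset.prod_congr rfl fun l _ => by rw [mul_assoc]
  refine ⟨fun p => al (x p), ⟨fun p => al_ne _, fun p => al_unitary _, fun p => ?_⟩,
    fun p => al_norm_le hT1 (hxb p), hmain, ?_, ?_⟩
  · by_cases hp : (p : ℕ) < ⌈2 * R ^ 2⌉₊
    · have h1 : ∀ m, st p = m → m = 0 → x p = 0 := by
        rintro m rfl hm
        obtain ⟨j, hj⟩ := S.mem p
        rw [hj]
        simp only [hy]
        rw [if_pos hm]
      have h2 : x p = 0 := h1 _ rfl (S.zero p hp)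
      simp only [h2]
      rw [norm_inv, al_norm (by rw [abs_zero]; norm_num), inv_one, one_pow]
      have : (1 : ℝ) < (p : ℕ) := by exact_mod_cast p.2.one_lt
      exact ⟨this, this⟩
    · push Not at hp
      have h1 : R ≤ (p : ℕ) := by
        have h2 : (2 : ℝ) * R ^ 2 ≤ (p : ℕ) := hN0.trans (by exact_mod_cast hp)
        nlinarith
      obtain ⟨h2, h3⟩ := halR _ (hxb p)
      exact ⟨lt_of_lt_of_le h2 h1, lt_of_lt_of_le h3 h1⟩
  · intro n hn1 hn2
    obtain ⟨h, h1, h2⟩ := hmain n hn1 hn2 1 1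
    have h3 : ∀ s : ℝ, 1 < s → HasProd (fun p : Nat.Primes => if p ∈ (∅ : Finset Nat.Primes) then 1
        else symFactor n (al (x p)) ((p : ℂ) ^ (-(s : ℂ)))) (Complex.exp (h s)) := by
      intro s hs
      refine (h2 (s : ℂ) (by simpa using hs)).congr_fun ?_ |> fun h => h
      intro p
      have h4 : ((p : ℕ) : ZMod 1) = 1 := Subsingleton.elim _ _
      rw [if_neg (by simp), h4, map_one, one_mul]
    refine ⟨fun s hs => (h3 s hs).multipliable, Complex.exp (h 1), Complex.exp_ne_zero _, ?_⟩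
    have h4 : Tendsto (fun s : ℝ => Complex.exp (h s)) (𝓝[>] 1) (𝓝 (Complex.exp (h 1))) := by
      refine (Complex.continuous_exp.tendsto _).comp ?_
      have h5 : ContinuousAt h 1 := by
        refine (h1.differentiableAt ?_).continuousAt
        exact (isOpen_lt continuous_const Complex.continuous_re).mem_nhds (by norm_num)
      have h6 : Tendsto (fun s : ℝ => (s : ℂ)) (𝓝[>] 1) (𝓝 1) := by
        have := Complex.continuous_ofReal.tendsto 1
        rw [Complex.ofReal_one] at this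
        exact this.mono_left nhdsWithin_le_nhds
      exact h5.tendsto.comp h6
    refine h4.congr' ?_
    filter_upwards [self_mem_nhdsWithin] with s hs
    exact (h3 s hs).tprod_eq.symm
  · intro q b hb hc
    have hE : ∀ t : ℝ, (‖al t‖ ≠ 1 ∧ T ≤ ‖al t + (al t)⁻¹‖) ↔ (2 < |t| ∧ T ≤ |t|) := by
      intro t
      rw [al_trace, Complex.norm_real, Real.norm_eq_abs]
      constructor
      · rintro ⟨h1, h2⟩
        refine ⟨?_, h2⟩
        by_contra h3
        exact h1 (al_norm (not_lt.1 h3))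
      · rintro ⟨h1, h2⟩
        exact ⟨al_norm_ne (not_le.2 h1), h2⟩
    have h1 := S.density_set {t : ℝ | 2 < |t| ∧ T ≤ |t|} (1 / W k T) ?_ q b hb hc
    · refine h1.congr fun N => ?_
      simp only [hE, Set.mem_ofPred_eq, piA]
    · have h2 : Tendsto (fun m => 1 / W k (a m)) atTop (𝓝 (1 / W k T)) := by
        refine Tendsto.div tendsto_const_nhds ?_ (W_pos k hT).ne'
        exact ((W_continuous k).tendsto T).comp hat
      refine h2.congr' ?_
      filter_upwards [eventually_ge_atTop 1] with m hm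
      rw [← hwa m]
      refine Fintype.sum_congr _ _ fun j => ?_
      have h5 : y m j = lam m j := by
        simp only [hy]
        rw [if_neg (by omega)]
      congr 1
      rw [h5]
      have h6 := ha1 m
      by_cases h7 : |lam m j| = a m
      · rw [if_pos h7, if_pos]
        exact ⟨by rw [h7]; linarith, by rw [h7]; exact h6.le⟩
      · rw [if_neg h7, if_neg]
        rintro ⟨h8, -⟩
        rcases hlam m j with h9 | h9
        · linarith
        · exact h7 h9

end Pool.Agent.H414.GRC
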