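import Pool.Agent.H414.GRC.Cheb

/-!
The extremal measure: a quadrature formula with an atom at `±a`.
-/

set_option autoImplicit false

namespace Pool.Agent.H414.GRC

open Finset

theorem spec {N : ℕ} (A : Matrix (Fin N) (Fin N) ℝ) (hA : ∀ i j, A i j = A j i) :
    ∃ (lam : Fin N → ℝ) (V : Fin N → Fin N → ℝ),
      (∀ i j, ∑ l, A i l * V l j = lam j * V i j) ∧
      (∀ i l, ∑ j, V i j * V l j = if i = l then 1 else 0) ∧
      (∀ j l, ∑ i, V i j * V i l = if j = l then 1 else 0) := by
  have hH : A.IsHermitian := by
    ext i j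
    simp [Matrix.conjTranspose_apply, hA i j]
  set b := hH.eigenvectorBasis with hb
  refine ⟨hH.eigenvalues, fun i j => b j i, fun i j => ?_, fun i l => ?_, fun j l => ?_⟩
  · have := congrFun (hH.mulVec_eigenvectorBasis j) i
    simpa [Matrix.mulVec, dotProduct] using this
  · have h1 := b.sum_inner_mul_inner (EuclideanSpace.single i (1 : ℝ))
      (EuclideanSpace.single l (1 : ℝ))
    simp only [EuclideanSpace.inner_single_left, EuclideanSpace.inner_single_right] at h1
    simp only [map_one, one_mul, conj_trivial] at h1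
    rw [h1]
    simp [eq_comm]
  · have h1 := orthonormal_iff_ite.1 b.orthonormal j l
    rw [← h1]
    simp [PiLp.inner_apply, mul_comm]

section
variable (k : ℕ) (b : ℝ)

/-- The couplings. -/
def cp (i : ℕ) : ℝ := if i = k then b else 1

/-- The tridiagonal matrix. -/
def tri : Matrix (Fin (k + 2)) (Fin (k + 2)) ℝ := fun i j =>
  (if (j : ℕ) = i + 1 then cp k b i else 0) + (if (i : ℕ) = j + 1 then cp k b j else 0)

theorem tri_symm (i j : Fin (k + 2)) : tri k b i j = tri k b j i := by
  unfold tri
  rw [add_comm]

theorem tri_sum (g : ℕ → ℝ) (i : Fin (k + 2)) :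
    ∑ l : Fin (k + 2), tri k b i l * g l =
      (if (i : ℕ) + 1 < k + 2 then cp k b i * g (i + 1) else 0) +
      (if 0 < (i : ℕ) then cp k b (i - 1) * g (i - 1) else 0) := by
  have h1 : ∑ l : Fin (k + 2), tri k b i l * g l = ∑ l ∈ range (k + 2),
      ((if l = (i : ℕ) + 1 then cp k b i * g l else 0) +
        (if (i : ℕ) = l + 1 then cp k b l * g l else 0)) := by
    rw [← Fin.sum_univ_eq_sum_range (fun l => (if l = (i : ℕ) + 1 then cp k b i * g l else 0) +
        (if (i : ℕ) = l + 1 then cp k b l * g l else 0))]
    refine Fintype.sum_congr _ _ fun l => ?_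
    unfold tri
    split_ifs <;> ring
  rw [h1, Finset.sum_add_distrib, Finset.sum_ite_eq']
  congr 1
  · simp only [Finset.mem_range]
  · split_ifs with h
    · rw [Finset.sum_eq_single ((i : ℕ) - 1)]
      · rw [if_pos (by omega)]
      · intro l _ hl
        rw [if_neg (by omega)]
      · intro hn
        exact absurd (Finset.mem_range.2 (by have := i.2; omega)) hn
    · refine Finset.sum_eq_zero fun l _ => ?_
      rw [if_neg (by omega)]

/-- The recursion for an eigenvector. -/
theorem eig (hk : 1 ≤ k) (lam : ℝ) (v : Fin (k + 2) → ℝ)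
    (h : ∀ i, ∑ l, tri k b i l * v l = lam * v i) :
    (∀ i : Fin (k + 2), (i : ℕ) ≤ k → v i = u i lam * v 0) ∧
      b * v (Fin.last (k + 1)) = u (k + 1) lam * v 0 ∧
      lam * v (Fin.last (k + 1)) = b * (u k lam * v 0) := by
  set g : ℕ → ℝ := fun n => if hn : n < k + 2 then v ⟨n, hn⟩ else 0 with hg
  have hgv : ∀ i : Fin (k + 2), g i = v i := fun i => by simp [hg]
  have hrow : ∀ i : ℕ, i < k + 2 → lam * g i = (if i + 1 < k + 2 then cp k b i * g (i + 1) else 0) +
      (if 0 < i then cp k b (i - 1) * g (i - 1) else 0) := by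
    intro i hi
    have h1 := h ⟨i, hi⟩
    rw [← hgv ⟨i, hi⟩, ← tri_sum k b g ⟨i, hi⟩] at *
    rw [← h1]
    exact Fintype.sum_congr _ _ fun l => by rw [hgv]
  have hmain : ∀ i : ℕ, i ≤ k → g i = u i lam * g 0 := by
    intro i
    induction i using Nat.strong_induction_on with
    | _ i ih =>
      intro hi
      match i with
      | 0 => simp
      | 1 =>
        have h1 := hrow 0 (by omega)
        rw [if_pos (by omega), if_neg (by omega), cp, if_neg (by omega)] at h1
        simp only [zero_add, one_mul, add_zero] at h1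
        rw [← h1, u_one]
      | i + 2 =>
        have h1 := hrow (i + 1) (by omega)
        rw [if_pos (by omega), if_pos (by omega), cp, if_neg (by omega), cp, if_neg (by omega)]
          at h1
        simp only [one_mul, Nat.add_sub_cancel] at h1
        rw [ih (i + 1) (by omega) (by omega), ih i (by omega) (by omega)] at h1
        have h2 : g (i + 1 + 1) = g (i + 2) := rfl
        rw [h2] at h1
        rw [u_add_two]
        linarith
  have h0 : g 0 = v 0 := hgv 0
  have hlast : g (k + 1) = v (Fin.last (k + 1)) := hgv (Fin.last (k + 1))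
  refine ⟨fun i hi => by rw [← hgv, hmain i hi, h0], ?_, ?_⟩
  · obtain ⟨k', rfl⟩ : ∃ k', k = k' + 1 := ⟨k - 1, by omega⟩
    have h1 := hrow (k' + 1) (by omega)
    rw [if_pos (by omega), if_pos (by omega), cp, if_pos rfl, cp, if_neg (by omega), one_mul,
      Nat.add_sub_cancel, hmain (k' + 1) le_rfl, hmain k' (by omega)] at h1
    rw [← hlast, ← h0, u_add_two]
    linarith
  · have h1 := hrow (k + 1) (by omega)
    rw [if_neg (by omega), if_pos (by omega), cp, Nat.add_sub_cancel, if_pos rfl,
      hmain k le_rfl, h0] at h1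
    rw [← hlast, h1]
    ring

/-- Conversely the recursion gives an eigenvector. -/
theorem eig' (hk : 1 ≤ k) (lam : ℝ) (hl : lam ≠ 0) (hb : lam * u (k + 1) lam = b ^ 2 * u k lam)
    (i : Fin (k + 2)) :
    ∑ l : Fin (k + 2), tri k b i l * (if (l : ℕ) ≤ k then u l lam else b / lam * u k lam) =
      lam * (if (i : ℕ) ≤ k then u i lam else b / lam * u k lam) := by
  rw [tri_sum k b (fun l => if l ≤ k then u l lam else b / lam * u k lam) i]
  have hi := i.2
  obtain ⟨i, hi'⟩ := i
  simp only
  rcases Nat.lt_trichotomy i k with h | h | h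
  · rw [if_pos (show i + 1 < k + 2 by omega), if_pos (show i + 1 ≤ k by omega),
      if_pos (show i ≤ k by omega), cp, if_neg (show ¬ i = k by omega), one_mul]
    rcases Nat.eq_zero_or_pos i with h1 | h1
    · subst h1
      rw [if_neg (lt_irrefl 0)]
      simp
    · obtain ⟨i, rfl⟩ : ∃ i', i = i' + 1 := ⟨i - 1, by omega⟩
      rw [if_pos h1, Nat.add_sub_cancel, if_pos (show i ≤ k by omega), cp,
        if_neg (show ¬ i = k by omega)]
      have h2 : u (i + 1 + 1) lam = lam * u (i + 1) lam - u i lam := u_add_two i lam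
      rw [h2]
      ring
  · subst h
    rw [if_pos (show i + 1 < i + 2 by omega), if_neg (show ¬ i + 1 ≤ i by omega),
      if_pos (show 0 < i by omega), if_pos (show i - 1 ≤ i by omega), if_pos (le_refl i), cp,
      if_pos rfl]
    obtain ⟨i, rfl⟩ : ∃ i', i = i' + 1 := ⟨i - 1, by omega⟩
    rw [cp, Nat.add_sub_cancel, if_neg (show ¬ i = i + 1 by omega), one_mul]
    have h2 : u (i + 1 + 1) lam = lam * u (i + 1) lam - u i lam := u_add_two i lam
    rw [h2] at hb
    field_simp
    linarith
  · have h1 : i = k + 1 := by omega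
    subst h1
    rw [if_neg (show ¬ k + 1 + 1 < k + 2 by omega), if_pos (show 0 < k + 1 by omega),
      Nat.add_sub_cancel, if_pos (le_refl k), if_neg (show ¬ k + 1 ≤ k by omega), cp, if_pos rfl]
    field_simp
    ring

end

/-- The extremal quadrature formula. -/
theorem quad (k : ℕ) (hk : 1 ≤ k) (a : ℝ) (ha : 2 < a) :
    ∃ (lam : Fin (k + 2) → ℝ) (w : Fin (k + 2) → ℝ), (∀ j, 0 ≤ w j) ∧ ∑ j, w j = 1 ∧
      (∀ j, |lam j| ≤ 2 ∨ |lam j| = a) ∧
      (∀ i l, i ≤ k → l ≤ k → ∑ j, w j * (u i (lam j) * u l (lam j)) = if i = l then 1 else 0) ∧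
      ∑ j, w j * (if |lam j| = a then 1 else 0) = 1 / W k a := by
  have ha2 : 2 ≤ a := ha.le
  have ha0 : a ≠ 0 := by linarith
  have hu0 := u_pos ha2 k
  have hu1 := u_pos ha2 (k + 1)
  set b : ℝ := Real.sqrt (a * u (k + 1) a / u k a) with hbdef
  have hbpos : 0 < b := Real.sqrt_pos.2 (by positivity)
  have hb2 : b ^ 2 = a * u (k + 1) a / u k a := Real.sq_sqrt (by positivity)
  have hba : a * u (k + 1) a = b ^ 2 * u k a := by rw [hb2]; field_simp
  obtain ⟨lam, V, hV1, hV2, hV3⟩ := spec (tri k b) (tri_symm k b)
  have heig := fun j => eig k b hk (lam j) (fun i => V i j) (fun i => hV1 i j)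
  have h0 : ∀ j, V 0 j ≠ 0 := by
    intro j hj
    have h1 := hV3 j j
    rw [if_pos rfl] at h1
    have h2 : ∀ i, V i j = 0 := by
      intro i
      by_cases hi : (i : ℕ) ≤ k
      · rw [(heig j).1 i hi, hj, mul_zero]
      · have h3 : i = Fin.last (k + 1) := by
          apply Fin.ext
          have := i.2
          simp only [Fin.val_last]
          omega
        have h4 := (heig j).2.1
        rw [hj, mul_zero] at h4
        rw [h3]
        exact (mul_eq_zero.1 h4).resolve_left hbpos.ne'
    simp [h2] at h1
  have hchar : ∀ j, lam j * u (k + 1) (lam j) = b ^ 2 * u k (lam j) := by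
    intro j
    obtain ⟨-, h1, h2⟩ := heig j
    have h3 : lam j * (u (k + 1) (lam j) * V 0 j) = b * (b * (u k (lam j) * V 0 j)) := by
      rw [← h1, ← h2]
      ring
    have h4 : (lam j * u (k + 1) (lam j)) * V 0 j = (b ^ 2 * u k (lam j)) * V 0 j := by
      linarith
    exact mul_right_cancel₀ (h0 j) h4
  -- only one characteristic root above `2`
  have huniq : ∀ x, 2 ≤ x → x * u (k + 1) x = b ^ 2 * u k x → x = a := by
    intro x hx h1
    have h2 : x * u (k + 1) x * u k a = a * u (k + 1) a * u k x := by
      rw [h1, hba]; ring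
    have h3 := u_pos hx k
    have h4 := u_pos hx (k + 1)
    rcases lt_trichotomy x a with h | h | h
    · have h5 := u_cross hx h.le k
      have h6 : x * (u (k + 1) x * u k a) ≤ x * (u (k + 1) a * u k x) :=
        mul_le_mul_of_nonneg_left h5 (by linarith)
      have h7 : x * (u (k + 1) a * u k x) < a * (u (k + 1) a * u k x) :=
        mul_lt_mul_of_pos_right h (mul_pos hu1 h3)
      nlinarith
    · exact h
    · have h5 := u_cross ha2 h.le k
      have h6 : a * (u (k + 1) a * u k x) ≤ a * (u (k + 1) x * u k a) :=
        mul_le_mul_of_nonneg_left h5 (by linarith)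
      have h7 : a * (u (k + 1) x * u k a) < x * (u (k + 1) x * u k a) :=
        mul_lt_mul_of_pos_right h (mul_pos h4 hu0)
      nlinarith
  have habs : ∀ j, |lam j| ≤ 2 ∨ |lam j| = a := by
    intro j
    by_cases h : |lam j| ≤ 2
    · exact Or.inl h
    · right
      push Not at h
      have h1 := hchar j
      rcases le_total 0 (lam j) with h2 | h2
      · rw [abs_of_nonneg h2] at h ⊢
        exact huniq _ h.le h1
      · rw [abs_of_nonpos h2] at h ⊢
        refine huniq _ h.le ?_
        rw [u_neg, u_neg]
        have h3 : -lam j * ((-1) ^ (k + 1) * u (k + 1) (lam j)) =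
            (-1) ^ k * (lam j * u (k + 1) (lam j)) := by ring
        rw [h3, h1]
        ring
  -- the weight of an eigenvalue
  have hweight : ∀ μ : ℝ, μ ^ 2 = a ^ 2 → μ * u (k + 1) μ = b ^ 2 * u k μ →
      ∑ j, (if lam j = μ then V 0 j ^ 2 else 0) = 1 / (2 * W k a) := by
    intro μ hμ2 hμ
    have hμ0 : μ ≠ 0 := by
      rintro rfl
      have : a ^ 2 = 0 := by rw [← hμ2]; ring
      exact ha0 (pow_eq_zero_iff two_ne_zero |>.1 this)
    have hua : ∀ n, u n μ ^ 2 = u n a ^ 2 := by
      intro n
      rcases sq_eq_sq_iff_eq_or_eq_neg.1 hμ2 with h | h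
      · rw [h]
      · rw [h, u_neg_sq]
    set e : Fin (k + 2) → ℝ := fun l => if (l : ℕ) ≤ k then u l μ else b / μ * u k μ with he
    have heμ := eig' k b hk μ hμ0 hμ
    have hnorm : ∑ i, e i ^ 2 = 2 * W k a := by
      have h1 : ∑ i, e i ^ 2 = ∑ i ∈ range (k + 2),
          (if i ≤ k then u i μ else b / μ * u k μ) ^ 2 := by
        rw [← Fin.sum_univ_eq_sum_range (fun i => (if i ≤ k then u i μ else b / μ * u k μ) ^ 2)]
      rw [h1, Finset.sum_range_succ, if_neg (by omega), ← W_id k ha0]
      congr 1
      · refine Finset.sum_congr rfl fun i hi => ?_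
        rw [if_pos (by have := Finset.mem_range.1 hi; omega), hua]
      · rw [mul_pow, hua, div_pow, hb2, hμ2]
        field_simp
    -- the inner products
    have hinner : ∀ j, (lam j - μ) * ∑ i, V i j * e i = 0 := by
      intro j
      have h1 : lam j * ∑ i, V i j * e i = ∑ i, ∑ l, tri k b i l * V l j * e i := by
        rw [Finset.mul_sum]
        refine Fintype.sum_congr _ _ fun i => ?_
        rw [← Finset.sum_mul, hV1]
        ring
      have h2 : μ * ∑ i, V i j * e i = ∑ i, ∑ l, tri k b i l * V l j * e i := by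
        rw [Finset.sum_comm, Finset.mul_sum]
        refine Fintype.sum_congr _ _ fun l => ?_
        have h3 := heμ l
        rw [show μ * (V l j * e l) = V l j * (μ * e l) by ring]
        simp only [he]
        rw [← h3, Finset.mul_sum]
        refine Fintype.sum_congr _ _ fun i => ?_
        rw [tri_symm k b l i]
        ring
      rw [sub_mul, h1, h2, sub_self]
    have hvj : ∀ j, lam j = μ → ∀ i, V i j = V 0 j * e i := by
      intro j hj i
      obtain ⟨h1, h2, h3⟩ := heig j
      by_cases hi : (i : ℕ) ≤ k
      · rw [h1 i hi, he]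
        simp only [if_pos hi]
        rw [hj]
        ring
      · have h4 : i = Fin.last (k + 1) := by
          apply Fin.ext
          have := i.2
          simp only [Fin.val_last]
          omega
        rw [he]
        simp only [if_neg hi]
        rw [h4]
        rw [hj] at h3
        field_simp
        linarith
    have h5 : ∀ j, (∑ i, V i j * e i) = if lam j = μ then V 0 j * (2 * W k a) else 0 := by
      intro j
      by_cases hj : lam j = μ
      · rw [if_pos hj, ← hnorm, Finset.mul_sum]
        refine Fintype.sum_congr _ _ fun i => ?_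
        rw [hvj j hj i]
        ring
      · rw [if_neg hj]
        exact (mul_eq_zero.1 (hinner j)).resolve_left (sub_ne_zero.2 hj)
    -- expand `e 0`
    have h6 : e 0 = ∑ j, V 0 j * ∑ i, V i j * e i := by
      simp only [Finset.mul_sum]
      rw [Finset.sum_comm]
      have h7 : ∀ i, ∑ j, V 0 j * (V i j * e i) = if 0 = i then e i else 0 := by
        intro i
        have h8 : ∑ j, V 0 j * (V i j * e i) = (∑ j, V 0 j * V i j) * e i := by
          rw [Finset.sum_mul]
          exact Fintype.sum_congr _ _ fun j => by ring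
        rw [h8, hV2]
        split_ifs <;> ring
      simp only [h7]
      rw [Finset.sum_ite_eq, if_pos (Finset.mem_univ _)]
    have h9 : e 0 = 1 := by simp [he]
    rw [h9] at h6
    simp only [h5] at h6
    have hW := W_pos k ha2
    rw [eq_div_iff (by positivity), Finset.sum_mul, h6]
    refine Fintype.sum_congr _ _ fun j => ?_
    split_ifs <;> ring
  refine ⟨lam, fun j => V 0 j ^ 2, fun j => sq_nonneg _, ?_, habs, ?_, ?_⟩
  · have := hV2 0 0
    rw [if_pos rfl] at this
    rw [← this]
    exact Fintype.sum_congr _ _ fun j => by ring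
  · intro i l hi hl
    have h1 := hV2 ⟨i, by omega⟩ ⟨l, by omega⟩
    simp only [Fin.mk.injEq] at h1
    rw [← h1]
    refine Fintype.sum_congr _ _ fun j => ?_
    rw [(heig j).1 ⟨i, by omega⟩ hi, (heig j).1 ⟨l, by omega⟩ hl]
    ring
  · have h1 := hweight a rfl hba
    have h2 := hweight (-a) (by ring) (by
      rw [u_neg, u_neg]
      have h3 : -a * ((-1) ^ (k + 1) * u (k + 1) a) = (-1) ^ k * (a * u (k + 1) a) := by ring
      rw [h3, hba]
      ring)
    have h3 : ∀ j, V 0 j ^ 2 * (if |lam j| = a then 1 else 0) =
        (if lam j = a then V 0 j ^ 2 else 0) + (if lam j = -a then V 0 j ^ 2 else 0) := by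
      intro j
      by_cases h4 : lam j = a
      · have e1 : |lam j| = a := by rw [h4, abs_of_pos (by linarith)]
        have e2 : ¬ lam j = -a := by
          rw [h4]
          intro h
          linarith
        rw [if_pos e1, if_pos h4, if_neg e2]
        ring
      · by_cases h5 : lam j = -a
        · have e1 : |lam j| = a := by rw [h5, abs_neg, abs_of_pos (by linarith)]
          rw [if_pos e1, if_neg h4, if_pos h5]
          ring
        · rw [if_neg h4, if_neg h5, if_neg]
          · ring
          · intro h6
            rcases abs_eq (by linarith : (0 : ℝ) ≤ a) |>.1 h6 with h | h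
            · exact h4 h
            · exact h5 h
    simp only [h3]
    rw [Finset.sum_add_distrib, h1, h2]
    have hW := W_pos k ha2
    field_simp
    norm_num

/-- The moments of the extremal measure. -/
theorem moments {k N : ℕ} (lam w : Fin N → ℝ)
    (h : ∀ i l, i ≤ k → l ≤ k → ∑ j, w j * (u i (lam j) * u l (lam j)) = if i = l then 1 else 0)
    (n : ℕ) (hn : 1 ≤ n) (hn2 : n ≤ 2 * k) : ∑ j, w j * u n (lam j) = 0 := by
  induction n using Nat.strong_induction_on with
  | _ n ih =>
    by_cases hnk : n ≤ k
    · have h1 := h n 0 hnk (by omega)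
      rw [if_neg (by omega)] at h1
      simpa using h1
    · push Not at hnk
      obtain ⟨m, rfl⟩ : ∃ m, n = k + m := ⟨n - k, by omega⟩
      have h1 := h k m le_rfl (by omega)
      have h0 : ∑ j, w j = 1 := by
        have := h 0 0 (by omega) (by omega)
        simpa using this
      simp only [u_mul m k (by omega)] at h1
      have h2 : ∑ j, w j * ∑ l ∈ range (m + 1), u (k + m - 2 * l) (lam j) =
          ∑ l ∈ range (m + 1), ∑ j, w j * u (k + m - 2 * l) (lam j) := by
        simp only [Finset.mul_sum]
        rw [Finset.sum_comm]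
      rw [h2, Finset.sum_range_succ'] at h1
      have h3 : ∀ l ∈ range m, ∑ j, w j * u (k + m - 2 * (l + 1)) (lam j) =
          if k + m - 2 * (l + 1) = 0 then 1 else 0 := by
        intro l hl
        have hl' := Finset.mem_range.1 hl
        by_cases h4 : k + m - 2 * (l + 1) = 0
        · rw [if_pos h4, h4]
          simpa using h0
        · rw [if_neg h4]
          exact ih _ (by omega) (by omega) (by omega)
      rw [Finset.sum_congr rfl h3] at h1
      have h5 : ∑ l ∈ range m, (if k + m - 2 * (l + 1) = 0 then (1 : ℝ) else 0) =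
          if k = m then 1 else 0 := by
        by_cases hkm : k = m
        · rw [if_pos hkm, Finset.sum_eq_single (m - 1)]
          · rw [if_pos (by omega)]
          · intro l hl hl'
            have := Finset.mem_range.1 hl
            rw [if_neg (by omega)]
          · intro hnot
            exact absurd (Finset.mem_range.2 (by omega)) hnot
        · rw [if_neg hkm]
          refine Finset.sum_eq_zero fun l hl => ?_
          have := Finset.mem_range.1 hl
          rw [if_neg (by omega)]
      rw [h5] at h1
      have h6 : k + m - 2 * 0 = k + m := by omega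
      rw [h6] at h1
      linarith

end Pool.Agent.H414.GRC
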